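import Pool.Agent.Helper74.WB.St

/-!
# Project WB (MP_26f0da_lc), module GRE: `OP` and stacks
-/

set_option autoImplicit false

namespace Pool.Agent.Helper9.WB

open Pool.Agent.Helper74 Pool.Agent.Helper74.WB

/-- The word `w` takes down the stack `σ`. -/
def Sg {Λ : Type} : List (Λ × Bool) → List ((Λ × Bool) × Bool) → Prop
  | [], w => OP w
  | x :: σ, w => ∃ (d : List ((Λ × Bool) × Bool)) (o : Bool) (w₁ : List ((Λ × Bool) × Bool)),
      w = d ++ (iv x, o) :: w₁ ∧ OP d ∧ Sg σ w₁

theorem sg_skip {Λ : Type} (a : Λ × Bool) (σ : List (Λ × Bool)) (w : List ((Λ × Bool) × Bool))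
    (h : Sg σ w) : Sg σ ((a, true) :: w) := by
  cases σ with
  | nil => exact OP.skip a w h
  | cons x σ =>
    obtain ⟨d, o, w₁, rfl, h1, h2⟩ := h
    exact ⟨(a, true) :: d, o, w₁, rfl, OP.skip a d h1, h2⟩

theorem sg_of_gr {Λ : Type} (w : List ((Λ × Bool) × Bool)) : ∀ σ : List (Λ × Bool),
    Gr w σ [] → Sg σ w := by
  induction w with
  | nil =>
    intro σ h
    have h' : σ = [] := h
    subst h'
    exact OP.nil
  | cons b w ih =>
    rcases b with ⟨a, o⟩
    intro σ h
    rcases h with h | ⟨ho, h⟩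
    · cases σ with
      | nil =>
        rw [ap_nil] at h
        obtain ⟨d, o', w₁, rfl, h1, h2⟩ := ih _ h
        exact OP.wrap a o o' d w₁ h1 h2
      | cons y σ =>
        by_cases e : y = iv a
        · subst e
          rw [ap_cancel] at h
          refine ⟨[], o, w, ?_, OP.nil, ih _ h⟩
          rw [iv_iv]
          rfl
        · rw [ap_push a y σ e] at h
          obtain ⟨d, o', w₁, rfl, h1, d₁, o'', w₂, rfl, h3, h4⟩ := ih _ h
          refine ⟨(a, o) :: (d ++ (iv a, o') :: d₁), o'', w₂, ?_, OP.wrap a o o' d d₁ h1 h3, h4⟩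
          simp
    · subst ho
      exact sg_skip a σ w (ih _ h)

theorem hGRE (hGRA : StGRA) : StGRE := by
  intro Λ w
  constructor
  · intro h
    exact hGRA Λ w [] h red_nil
  · intro h
    exact sg_of_gr w [] h

end Pool.Agent.Helper9.WB
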