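import Pool.Agent.Helper74.WB.St

/-!
# Project WB (MP_26f0da_lc), module PA1: from quasipositive words to the path
-/

set_option autoImplicit false

namespace Pool.Agent.Helper9.WB

open Pool.Agent.Helper74 Pool.Agent.Helper74.WB
open Pool.Agent.Helper74.NM (NC)

theorem nc_append' {G : Type} {R : G → G → Prop} (u v : List G) (hu : NC R u) (hv : NC R v) :
    NC R (u ++ v) := by
  induction hu with
  | nil => exact hv
  | wrap x y p q hxy hp _ _ ihq =>
    have e : x :: (p ++ y :: q) ++ v = x :: (p ++ y :: (q ++ v)) := by simp
    rw [e]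
    exact NC.wrap x y p (q ++ v) hxy hp ihq

theorem nc_pair {G : Type} {R : G → G → Prop} (x y : G) (u : List G) (h : R x y) (hu : NC R u) :
    NC R (x :: (u ++ [y])) :=
  NC.wrap x y u [] h hu NC.nil

theorem nc_nest {G : Type} {R : G → G → Prop} (x y : G) (h : R x y) (m : List G) (hm : NC R m)
    (i : ℕ) : NC R (List.replicate i x ++ (m ++ List.replicate i y)) := by
  induction i with
  | zero => simpa using hm
  | succ i ih =>
    have e : List.replicate (i + 1) x ++ (m ++ List.replicate (i + 1) y) =
        x :: ((List.replicate i x ++ (m ++ List.replicate i y)) ++ [y]) := by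
      rw [List.replicate_succ, List.replicate_succ']
      simp
    rw [e]
    exact nc_pair x y _ h ih

theorem hPA1 : StPA1 := by
  intro w hq h
  have h01 : (SimpleGraph.pathGraph 4).Adj 0 1 := by simp [SimpleGraph.pathGraph_adj]
  have h12 : (SimpleGraph.pathGraph 4).Adj 1 2 := by simp [SimpleGraph.pathGraph_adj]
  have h23 : (SimpleGraph.pathGraph 4).Adj 2 3 := by simp [SimpleGraph.pathGraph_adj]
  induction h with
  | nil => exact NC.nil
  | skip x w _ ih =>
    have hx : true = x.2 := hq (x, true) (by simp)
    rcases x with ⟨i, s⟩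
    simp only at hx
    subst hx
    rw [List.flatMap_cons]
    apply nc_append' _ _ _ (ih fun a ha => hq a (by simp [ha]))
    have h1 : NC (SimpleGraph.pathGraph 4).Adj ([1, 2] : List (Fin 4)) :=
      nc_pair 1 2 [] h12 NC.nil
    exact nc_nest 0 1 h01 [1, 2] h1 i
  | wrap x o o' u v _ _ ihu ihv =>
    have hx : o = x.2 := hq (x, o) (by simp)
    have hx' : o' = (iv x).2 := hq (iv x, o') (by simp)
    have hU := ihu fun a ha => hq a (by simp [ha])
    have hV := ihv fun a ha => hq a (by simp [ha])
    rcases x with ⟨i, s⟩
    simp only [iv] at hx hx'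
    subst hx hx'
    have hin := nc_nest 1 0 h01.symm (u.flatMap pw) hU i
    cases o with
    | true =>
      have h1 := nc_pair 2 3 _ h23 hin
      have h2 := nc_pair 1 0 _ h01.symm h1
      have h3 := nc_append' _ _ (nc_nest 0 1 h01 _ h2 i) hV
      have e : (((i, true), true) :: (u ++ (iv (i, true), !true) :: v)).flatMap pw =
          List.replicate i 0 ++ ((1 :: ((2 :: ((List.replicate i 1 ++ (u.flatMap pw ++
            List.replicate i 0)) ++ [3])) ++ [0])) ++ List.replicate i 1) ++ v.flatMap pw := by
        simp [List.flatMap_cons, List.flatMap_append, pw, iv]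
      rw [e]
      exact h3
    | false =>
      have h1 := nc_pair 0 1 _ h01 hin
      have h2 := nc_pair 3 2 _ h23.symm h1
      have h3 := nc_append' _ _ (nc_nest 0 1 h01 _ h2 i) hV
      have e : (((i, false), false) :: (u ++ (iv (i, false), !false) :: v)).flatMap pw =
          List.replicate i 0 ++ ((3 :: ((0 :: ((List.replicate i 1 ++ (u.flatMap pw ++
            List.replicate i 0)) ++ [1])) ++ [2])) ++ List.replicate i 1) ++ v.flatMap pw := by
        simp [List.flatMap_cons, List.flatMap_append, pw, iv]
      rw [e]
      exact h3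

end Pool.Agent.Helper9.WB
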